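import Pool.Agent.BEJ.Stmts

set_option autoImplicit false

namespace Pool.Agent.BEJ.H50

open Pool.Agent.BED Pool.Agent.BEJ Set

theorem j0_even (x : ℝ) : j0 (-x) = j0 x := by
  unfold j0
  refine tsum_congr fun k => ?_
  rw [Even.neg_pow (even_two_mul k)]

theorem jab (hjta : JtaStmt) (hjde : JdeStmt) : JabStmt := by
  obtain ⟨d1, d2, hode, -, -, hlip⟩ := hjde
  have h0 : j0 0 = 1 := by
    have h := hjta.2 0 1 (by norm_num)
    rw [Finset.sum_range_one] at h
    have b0 : bj 0 = 1 := by
      unfold bj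
      norm_num
    rw [b0] at h
    norm_num at h
    linarith
  have h1 : deriv j0 0 = 0 := by
    have h := hode 0
    linarith
  have hE : ∀ x, HasDerivAt (fun y => j0 y ^ 2 + deriv j0 y ^ 2)
      (2 * j0 x * deriv j0 x + 2 * deriv j0 x * deriv (deriv j0) x) x := by
    intro x
    have h := ((d1 x).pow 2).add ((d2 x).pow 2)
    refine h.congr_deriv ?_
    push_cast
    ring
  have hanti : AntitoneOn (fun y => j0 y ^ 2 + deriv j0 y ^ 2) (Ici 0) := by
    refine antitoneOn_of_deriv_nonpos (convex_Ici 0)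
      (fun x _ => (hE x).continuousAt.continuousWithinAt)
      (fun x _ => (hE x).differentiableAt.differentiableWithinAt) ?_
    intro x hx
    rw [interior_Ici] at hx
    have hx0 : 0 < x := hx
    rw [(hE x).deriv]
    have h2 : x * (2 * j0 x * deriv j0 x + 2 * deriv j0 x * deriv (deriv j0) x) ≤ 0 := by
      have h3 : x * (2 * j0 x * deriv j0 x + 2 * deriv j0 x * deriv (deriv j0) x) =
          2 * deriv j0 x * (x * deriv (deriv j0) x + deriv j0 x + x * j0 x)
            - 2 * deriv j0 x ^ 2 := by ring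
      rw [h3, hode x]
      nlinarith [sq_nonneg (deriv j0 x)]
    by_contra hcon
    push Not at hcon
    have := mul_pos hx0 hcon
    linarith
  have hE0 : ∀ x : ℝ, 0 ≤ x → j0 x ^ 2 + deriv j0 x ^ 2 ≤ 1 := by
    intro x hx
    have h := hanti (mem_Ici.2 le_rfl) (mem_Ici.2 hx) hx
    simp only [h0, h1] at h
    linarith
  have hb : ∀ x : ℝ, 0 ≤ x → |j0 x| ≤ 1 := by
    intro x hx
    have h := hE0 x hx
    have h2 : j0 x ^ 2 ≤ 1 := by nlinarith [sq_nonneg (deriv j0 x)]
    exact abs_le_one_iff_mul_self_le_one.2 (by nlinarith)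
  refine ⟨?_, ?_⟩
  · intro x
    rcases le_total 0 x with hx | hx
    · exact hb x hx
    · rw [← j0_even x]
      exact hb (-x) (by linarith)
  · intro x hx hz hd
    have hF : ∀ y, HasDerivAt (fun z => z ^ 2 * (j0 z ^ 2 + deriv j0 z ^ 2))
        (2 * y * (j0 y ^ 2 + deriv j0 y ^ 2) +
          y ^ 2 * (2 * j0 y * deriv j0 y + 2 * deriv j0 y * deriv (deriv j0) y)) y := by
      intro y
      have h := ((hasDerivAt_id y).pow 2).mul (hE y)
      refine h.congr_deriv ?_
      simp
    have hmono : MonotoneOn (fun z => z ^ 2 * (j0 z ^ 2 + deriv j0 z ^ 2)) (Ici 0) := by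
      refine monotoneOn_of_deriv_nonneg (convex_Ici 0)
        (fun y _ => (hF y).continuousAt.continuousWithinAt)
        (fun y _ => (hF y).differentiableAt.differentiableWithinAt) ?_
      intro y hy
      rw [interior_Ici] at hy
      have hy0 : 0 < y := hy
      rw [(hF y).deriv]
      have h3 : 2 * y * (j0 y ^ 2 + deriv j0 y ^ 2) +
          y ^ 2 * (2 * j0 y * deriv j0 y + 2 * deriv j0 y * deriv (deriv j0) y) =
          2 * y * j0 y ^ 2 + 2 * y * deriv j0 y *
            (y * deriv (deriv j0) y + deriv j0 y + y * j0 y) := by ring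
      rw [h3, hode y]
      nlinarith [mul_nonneg hy0.le (sq_nonneg (j0 y))]
    set y := min x (1 / 2) with hy
    have hy0 : 0 < y := lt_min hx (by norm_num)
    have hyx : y ≤ x := min_le_left _ _
    have hy2 : y ≤ 1 / 2 := min_le_right _ _
    have h := hmono (mem_Ici.2 hy0.le) (mem_Ici.2 hx.le) hyx
    simp only [hz, hd] at h
    have h4 : j0 y ^ 2 + deriv j0 y ^ 2 ≤ 0 := by
      by_contra hcon
      push Not at hcon
      have := mul_pos (pow_pos hy0 2) hcon
      norm_num at h
      linarith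
    have h5 : j0 y = 0 := by
      have : j0 y ^ 2 ≤ 0 := by nlinarith [sq_nonneg (deriv j0 y)]
      have h6 : j0 y ^ 2 = 0 := le_antisymm this (sq_nonneg _)
      exact pow_eq_zero_iff (two_ne_zero) |>.1 h6
    have h7 := hlip y 0
    rw [h5, h0, sub_zero, abs_of_pos hy0] at h7
    norm_num at h7
    linarith

end Pool.Agent.BEJ.H50
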